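import Mathlib
import Pool.Agent.U180.NG.Stm

/-!
Project NG, package LOWP: almost surely the error in the Gauss circle problem for displaced lattice
points reaches `c (n log n)^(1/2)` in both directions.
-/

set_option autoImplicit false

open MeasureTheory ProbabilityTheory Filter Topology

namespace Pool.Agent.U103.NG

open Pool.Agent.U180.NG

/-- the numerical inequalities -/
theorem asy (c C : ℝ) (hc : 0 < c) (s : ℕ) (hs : 0 < s) :
    ∃ κ : ℝ, 0 < κ ∧ ∃ i0 : ℕ, ∀ i ≥ i0,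
      1 ≤ ⌊Real.log i / (2 * Real.log 64)⌋₊ ∧
      2 * ((⌊Real.log i / (2 * Real.log 64)⌋₊ : ℕ) : ℝ) ≤ c * ((s * (i + 1) : ℕ) : ℝ) ∧
      1 / Real.sqrt i ≤ (1 / 64 : ℝ) ^ ⌊Real.log i / (2 * Real.log 64)⌋₊ ∧
      ∀ V : ℝ, c * ((s * (i + 1) : ℕ) : ℝ) ≤ V →
        κ * Real.sqrt (((s * (i + 1) : ℕ) : ℝ) * Real.log ((s * (i + 1) : ℕ) : ℝ)) +
          C * Real.sqrt ((s * (i + 1) : ℕ) : ℝ) ≤
        Real.sqrt (((⌊Real.log i / (2 * Real.log 64)⌋₊ : ℕ) : ℝ) * V) / 12 := by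
  set B : ℝ := Real.log 64 with hB
  have hB1 : 1 < B := by
    rw [hB, Real.lt_log_iff_exp_lt (by norm_num)]
    have := Real.exp_one_lt_d9
    linarith
  set c2 : ℝ := Real.sqrt (c / (8 * B)) / 12 with hc2
  have hc2p : 0 < c2 := by positivity
  refine ⟨c2 / 2, by positivity, ?_⟩
  have t1 : Tendsto (fun i : ℕ => Real.log (i : ℝ)) atTop atTop :=
    Real.tendsto_log_atTop.comp tendsto_natCast_atTop_atTop
  have e1 : ∀ᶠ i : ℕ in atTop, 4 * B ≤ Real.log (i : ℝ) := t1.eventually_ge_atTop _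
  have e2 : ∀ᶠ i : ℕ in atTop, Real.log s + Real.log 2 ≤ Real.log (i : ℝ) :=
    t1.eventually_ge_atTop _
  have e3 : ∀ᶠ i : ℕ in atTop, (2 * C / c2) ^ 2 ≤ Real.log (i : ℝ) := t1.eventually_ge_atTop _
  have e4 : ∀ᶠ i : ℕ in atTop, Real.log (i : ℝ) ≤ c * (i : ℝ) := by
    have h := (Real.isLittleO_log_id_atTop.def hc)
    have h' := tendsto_natCast_atTop_atTop (R := ℝ) |>.eventually h
    filter_upwards [h', e1] with i hi hi1
    have h0 : 0 ≤ Real.log (i : ℝ) := by linarith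
    rw [Real.norm_of_nonneg h0] at hi
    simpa using hi
  obtain ⟨i0, hi0⟩ := eventually_atTop.1 (e1.and (e2.and (e3.and (e4.and (eventually_ge_atTop 1)))))
  refine ⟨i0, fun i hi => ?_⟩
  obtain ⟨g1, g2, g3, g4, g5⟩ := hi0 i hi
  set x : ℝ := Real.log (i : ℝ) with hx
  set L : ℕ := ⌊x / (2 * B)⌋₊ with hL
  have hiR : (1 : ℝ) ≤ i := by exact_mod_cast g5
  have hi0' : (0 : ℝ) < i := by linarith
  have hx0 : 0 ≤ x := by linarith
  have hL1 : (L : ℝ) ≤ x / (2 * B) := Nat.floor_le (by positivity)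
  have hL2 : x / (2 * B) < L + 1 := Nat.lt_floor_add_one _
  have hBp : 0 < B := by linarith
  have hxB : 1 ≤ x / (4 * B) := by
    rw [le_div_iff₀ (by positivity)]
    linarith
  have hxB2 : x / (2 * B) = 2 * (x / (4 * B)) := by
    field_simp
    ring
  have hL3 : x / (4 * B) ≤ L := by linarith
  have hL4 : 1 ≤ L := by
    have : (1 : ℝ) ≤ L := hxB.trans hL3
    exact_mod_cast this
  set n : ℕ := s * (i + 1) with hn
  have hsR : (1 : ℝ) ≤ s := by exact_mod_cast hs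
  have hnR : (n : ℝ) = s * (i + 1) := by
    rw [hn]
    push_cast
    ring
  have hni : (i : ℝ) ≤ n := by
    rw [hnR]
    nlinarith
  have hn0 : (0 : ℝ) < n := by linarith
  have hlogn1 : x ≤ Real.log n := Real.log_le_log hi0' hni
  have hlogn2 : Real.log n ≤ 2 * x := by
    have h1 : (n : ℝ) ≤ s * (2 * i) := by
      rw [hnR]
      nlinarith
    have h2 := Real.log_le_log hn0 h1
    rw [Real.log_mul (by linarith) (by linarith), Real.log_mul (by norm_num) (by linarith)] at h2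
    linarith
  refine ⟨hL4, ?_, ?_, ?_⟩
  · have h1 : 2 * (L : ℝ) ≤ x / B := by
      have : x / B = 2 * (x / (2 * B)) := by
        field_simp
      linarith
    have h2 : x / B ≤ x := div_le_self hx0 hB1.le
    have h3 : c * (i : ℝ) ≤ c * n := mul_le_mul_of_nonneg_left hni hc.le
    linarith
  · have h1 : (1 / 64 : ℝ) ^ L = Real.exp (-(L * B)) := by
      rw [← mul_neg, Real.exp_nat_mul, Real.exp_neg, hB, Real.exp_log (by norm_num), one_div]
    have h2 : 1 / Real.sqrt i = Real.exp (-(x / 2)) := by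
      rw [Real.exp_neg, Real.exp_half, hx, Real.exp_log hi0', one_div]
    rw [h1, h2, Real.exp_le_exp]
    have h3 : (L : ℝ) * B ≤ x / (2 * B) * B := mul_le_mul_of_nonneg_right hL1 hBp.le
    have h4 : x / (2 * B) * B = x / 2 := by
      field_simp
    linarith
  · intro V hV
    have hlog0 : 0 ≤ Real.log n := by linarith
    have h1 : c / (8 * B) * (n * Real.log n) ≤ L * V := by
      have h2 : Real.log n / (8 * B) ≤ L := by
        refine le_trans ?_ hL3
        have h3 : x / (4 * B) = 2 * x / (8 * B) := by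
          field_simp
          ring
        rw [h3]
        exact div_le_div_of_nonneg_right hlogn2 (by positivity)
      calc c / (8 * B) * (n * Real.log n) = (Real.log n / (8 * B)) * (c * n) := by ring
        _ ≤ L * V := mul_le_mul h2 hV (by positivity) (by positivity)
    have h2 : Real.sqrt (c / (8 * B)) * Real.sqrt (n * Real.log n) ≤ Real.sqrt (L * V) := by
      rw [← Real.sqrt_mul (by positivity)]
      exact Real.sqrt_le_sqrt h1
    have h3 : C * Real.sqrt n ≤ c2 / 2 * Real.sqrt (n * Real.log n) := by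
      rw [Real.sqrt_mul hn0.le]
      have h4 : 2 * C / c2 ≤ Real.sqrt (Real.log n) := by
        refine (Real.le_sqrt_of_sq_le ?_)
        linarith
      rw [div_le_iff₀ hc2p] at h4
      have h5 : C ≤ c2 / 2 * Real.sqrt (Real.log n) := by linarith
      have h6 := mul_le_mul_of_nonneg_right h5 (Real.sqrt_nonneg (n : ℝ))
      calc C * Real.sqrt n ≤ c2 / 2 * Real.sqrt (Real.log n) * Real.sqrt n := h6
        _ = _ := by ring
    have h4 : c2 * Real.sqrt (n * Real.log n) ≤ Real.sqrt (L * V) / 12 := by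
      rw [hc2]
      calc Real.sqrt (c / (8 * B)) / 12 * Real.sqrt (n * Real.log n) =
          (Real.sqrt (c / (8 * B)) * Real.sqrt (n * Real.log n)) / 12 := by ring
        _ ≤ _ := div_le_div_of_nonneg_right h2 (by norm_num)
    linarith

/-- **Package LOWP.** -/
theorem t_LOWP (h1 : S_FLUC) (h2 : S_LOW) (h3 : S_BCL) : S_LOWP := by
  intro Ω _ P hP δ ρ μ ξ hξ
  obtain ⟨C, A, c, R₀, r, S, hC, hA, hc, hr, f1, f2, f3, f4, f5, f6⟩ := h1 Ω P hP δ ρ μ ξ hξ
  set s : ℕ := ⌈2 * r⌉₊ + 1 with hs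
  have hs0 : 0 < s := by omega
  have hs2 : 2 * r < s := by
    rw [hs]
    push_cast
    have := Nat.le_ceil (2 * r)
    linarith
  obtain ⟨κ, hκ, i0, hi0⟩ := asy c C hc s hs0
  let nn : ℕ → ℕ := fun i => s * (i + 1)
  have hnn1 : ∀ i, (1 : ℝ) ≤ (nn i : ℝ) := by
    intro i
    have : 1 ≤ nn i := Nat.one_le_iff_ne_zero.2 (by positivity)
    exact_mod_cast this
  have hnn2 : ∀ i : ℕ, (i : ℝ) ≤ (nn i : ℝ) := by
    intro i
    have : i ≤ nn i := by
      show i ≤ s * (i + 1)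
      nlinarith
    exact_mod_cast this
  let L : ℕ → ℕ := fun i => ⌊Real.log i / (2 * Real.log 64)⌋₊
  let V : ℕ → ℝ := fun i => ∑ z ∈ S (nn i), (∫ ω, ind ξ (nn i) z ω ∂P) *
    (1 - ∫ ω, ind ξ (nn i) z ω ∂P)
  let a : ℕ → ℝ := fun i => Real.sqrt (L i * V i) / 12
  have hV : ∀ i ≥ max i0 ⌈R₀⌉₊, c * (nn i : ℝ) ≤ V i := by
    intro i hi
    refine f3 _ ?_
    have g1 : R₀ ≤ ⌈R₀⌉₊ := Nat.le_ceil _
    have g2 : ((⌈R₀⌉₊ : ℕ) : ℝ) ≤ i := by exact_mod_cast (le_max_right _ _).trans hi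
    have g3 := hnn2 i
    linarith
  have hind : ∀ (R : ℝ) (z : ℤ × ℤ) (ω : Ω), ind ξ R z ω = 0 ∨ ind ξ R z ω = 1 := by
    intro R z ω
    unfold ind
    by_cases h : ξ z ω ∈ disc R z
    · right
      rw [Set.indicator_of_mem h]
    · left
      rw [Set.indicator_of_notMem h]
  have hlow : ∀ i ≥ max i0 ⌈R₀⌉₊,
      (1 / 64 : ℝ) ^ (L i) ≤ P.real {ω | a i ≤ ∑ z ∈ S (nn i),
        (ind ξ (nn i) z ω - ∫ ω, ind ξ (nn i) z ω ∂P)} ∧
      (1 / 64 : ℝ) ^ (L i) ≤ P.real {ω | ∑ z ∈ S (nn i),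
        (ind ξ (nn i) z ω - ∫ ω, ind ξ (nn i) z ω ∂P) ≤ -(a i)} := by
    intro i hi
    obtain ⟨k1, k2, k3, k4⟩ := hi0 i ((le_max_left _ _).trans hi)
    exact h2 Ω (ℤ × ℤ) P hP (ind ξ (nn i)) (S (nn i)) (L i) (f4 _) (f5 _) (hind _) k1
      (k2.trans (hV i hi))
  have hdisc : ∀ (R : ℝ) (z : ℤ × ℤ), MeasurableSet (disc R z) := by
    intro R z
    unfold disc
    exact measurableSet_le (by fun_prop) measurable_const
  have hdisj : ∀ i j, i ≠ j → Disjoint (S (nn i)) (S (nn j)) := by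
    intro i j hij
    rw [Finset.disjoint_left]
    intro z hz hz'
    have g1 := (f2 (nn i) (hnn1 i)).2.1 z hz
    have g2 := (f2 (nn j) (hnn1 j)).2.1 z hz'
    rw [abs_le] at g1 g2
    have g3 : ∀ i j : ℕ, i < j → (nn i : ℝ) + s ≤ nn j := by
      intro i j hij
      have : nn i + s ≤ nn j := by
        show s * (i + 1) + s ≤ s * (j + 1)
        nlinarith
      exact_mod_cast this
    rcases lt_or_gt_of_ne hij with h | h
    · have := g3 i j h
      linarith
    · have := g3 j i h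
      linarith
  have b1 := h3 Ω P hP ξ hξ.meas hξ.indep (fun i => S (nn i))
    (fun i z x => (disc (nn i) z).indicator (fun _ => (1 : ℝ)) x - ∫ ω, ind ξ (nn i) z ω ∂P) a
    (fun i z => (measurable_const.indicator (hdisc _ _)).sub_const _) hdisj
    ⟨max i0 ⌈R₀⌉₊, fun i hi => by
      obtain ⟨k1, k2, k3, k4⟩ := hi0 i ((le_max_left _ _).trans hi)
      exact k3.trans (hlow i hi).1⟩
  have b2 := h3 Ω P hP ξ hξ.meas hξ.indep (fun i => S (nn i))
    (fun i z x => -((disc (nn i) z).indicator (fun _ => (1 : ℝ)) x - ∫ ω, ind ξ (nn i) z ω ∂P)) a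
    (fun i z => ((measurable_const.indicator (hdisc _ _)).sub_const _).neg) hdisj
    ⟨max i0 ⌈R₀⌉₊, fun i hi => by
      obtain ⟨k1, k2, k3, k4⟩ := hi0 i ((le_max_left _ _).trans hi)
      refine k3.trans ((hlow i hi).2.trans (le_of_eq ?_))
      congr 1
      ext ω
      simp only [Set.mem_setOf_eq, Finset.sum_neg_distrib]
      constructor
      · intro h
        have : ∑ z ∈ S (nn i), ((disc (nn i) z).indicator (fun _ => (1 : ℝ)) (ξ z ω) -
          ∫ ω, ind ξ (nn i) z ω ∂P) ≤ -(a i) := h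
        linarith
      · intro h
        show ∑ z ∈ S (nn i), ((disc (nn i) z).indicator (fun _ => (1 : ℝ)) (ξ z ω) -
          ∫ ω, ind ξ (nn i) z ω ∂P) ≤ -(a i)
        linarith⟩
  have hae : ∀ᵐ ω ∂P, ∀ i : ℕ, (count (fun z => ξ z ω) (nn i) : ℝ) -
      ∫ ω, (count (fun z => ξ z ω) (nn i) : ℝ) ∂P =
        ∑ z ∈ S (nn i), (ind ξ (nn i) z ω - ∫ ω, ind ξ (nn i) z ω ∂P) :=
    ae_all_iff.2 fun i => (f2 (nn i) (hnn1 i)).2.2
  have htend : Tendsto nn atTop atTop := by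
    refine tendsto_atTop_mono (fun i => ?_) tendsto_id
    show i ≤ s * (i + 1)
    nlinarith
  have hfin : ∀ i ≥ max i0 ⌈R₀⌉₊, κ * Real.sqrt ((nn i : ℝ) * Real.log (nn i)) +
      C * Real.sqrt (nn i) ≤ a i := by
    intro i hi
    obtain ⟨k1, k2, k3, k4⟩ := hi0 i ((le_max_left _ _).trans hi)
    exact k4 (V i) (hV i hi)
  refine ⟨κ, hκ, ?_⟩
  filter_upwards [b1, b2, hae] with ω w1 w2 w3
  constructor
  · have : ∃ᶠ i in atTop, κ * Real.sqrt ((nn i : ℝ) * Real.log (nn i)) ≤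
        (count (fun z => ξ z ω) (nn i) : ℝ) - Real.pi * (nn i : ℝ) ^ 2 := by
      refine (w1.and_eventually (eventually_ge_atTop (max i0 ⌈R₀⌉₊))).mono ?_
      rintro i ⟨hi, hi'⟩
      have k1 := hfin i hi'
      have k2 := abs_le.1 (f1 (nn i) (hnn1 i))
      have k3 := w3 i
      have k4 : a i ≤ ∑ z ∈ S (nn i), (ind ξ (nn i) z ω - ∫ ω, ind ξ (nn i) z ω ∂P) := hi
      rw [← k3] at k4
      linarith [k2.1]
    exact htend.frequently (p := fun n : ℕ => κ * Real.sqrt ((n : ℝ) * Real.log n) ≤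
        (count (fun z => ξ z ω) n : ℝ) - Real.pi * (n : ℝ) ^ 2) this
  · have : ∃ᶠ i in atTop, (count (fun z => ξ z ω) (nn i) : ℝ) - Real.pi * (nn i : ℝ) ^ 2 ≤
        -(κ * Real.sqrt ((nn i : ℝ) * Real.log (nn i))) := by
      refine (w2.and_eventually (eventually_ge_atTop (max i0 ⌈R₀⌉₊))).mono ?_
      rintro i ⟨hi, hi'⟩
      have k1 := hfin i hi'
      have k2 := abs_le.1 (f1 (nn i) (hnn1 i))
      have k3 := w3 i
      rw [Finset.sum_neg_distrib] at hi
      have k4 : a i ≤ -(∑ z ∈ S (nn i), (ind ξ (nn i) z ω - ∫ ω, ind ξ (nn i) z ω ∂P)) := hi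
      rw [← k3] at k4
      linarith [k2.2]
    exact htend.frequently (p := fun n : ℕ => (count (fun z => ξ z ω) n : ℝ) -
      Real.pi * (n : ℝ) ^ 2 ≤ -(κ * Real.sqrt ((n : ℝ) * Real.log n))) this

end Pool.Agent.U103.NG
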